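import Pool.Agent.TH873.VS.PT

/-!
Simple roots over the integer points (job VS-ROOTS).
-/

set_option autoImplicit false

namespace Pool.Agent.TH424.VS

open MvPolynomial Pool.Agent.TH852.SP Pool.Agent.TH873.VS

/-- the substitution -/
noncomputable def su (i j : ℂ) : Fin (3 + 1) → R4 :=
  ![X 0, X 1 + C i * X 0, X 2 + C j * X 0, X 3]

theorem su_hom {d : ℕ} {F : R4} (hF : F.IsHomogeneous d) (i j : ℂ) :
    (aeval (su i j) F : R4).IsHomogeneous d := by
  have := hF.aeval (su i j) (n := 1) (τ := Fin (3 + 1))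
    (by
      intro k
      have hC : ∀ (c : ℂ) (l : Fin (3 + 1)), (C c * X l : R4).IsHomogeneous 1 := fun c l => by
        simpa using (isHomogeneous_C (Fin (3 + 1)) c).mul (isHomogeneous_X ℂ l)
      fin_cases k
      · exact isHomogeneous_X _ _
      · exact (isHomogeneous_X ℂ 1).add (hC i 0)
      · exact (isHomogeneous_X ℂ 2).add (hC j 0)
      · exact isHomogeneous_X _ _)
  rw [one_mul] at this
  exact this

theorem su_inv (i j : ℂ) (F : R4) : aeval (su (-i) (-j)) (aeval (su i j) F : R4) = F := by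
  have h : ((aeval (su (-i) (-j)) : R4 →ₐ[ℂ] R4).comp (aeval (su i j))) = AlgHom.id ℂ R4 := by
    apply MvPolynomial.algHom_ext
    intro k
    fin_cases k <;> simp [su, algebraMap_eq]
  have := DFunLike.congr_fun h F
  simpa using this

theorem su_eval (i j t : ℂ) (F : R4) :
    eval (pt t) (aeval (su i j) F : R4) = eval ![1, i, j, t] F := by
  have h : ((aeval (pt t) : R4 →ₐ[ℂ] ℂ).comp (aeval (su i j))) =
      (aeval ![1, i, j, t] : R4 →ₐ[ℂ] ℂ) := by
    apply MvPolynomial.algHom_ext
    intro k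
    fin_cases k <;> simp [su, pt]
  have := DFunLike.congr_fun h F
  simpa [aeval_eq_eval] using this

theorem su_pderiv (i j : ℂ) (F : R4) :
    pderiv 3 (aeval (su i j) F : R4) = aeval (su i j) (pderiv 3 F) := by
  induction F using MvPolynomial.induction_on with
  | C a => simp [algebraMap_eq]
  | add p q hp hq => rw [map_add, map_add, hp, hq, map_add, map_add]
  | mul_X p n hp =>
    have hn : pderiv 3 (su i j n) = (aeval (su i j) (pderiv 3 (X n : R4)) : R4) := by
      fin_cases n <;> simp [su, pderiv_X]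
    rw [map_mul, aeval_X, Derivation.leibniz, hp, Derivation.leibniz, hn]
    simp only [smul_eq_mul, map_add, map_mul, aeval_X]

/-- coefficients in `K` -/
def In4 (K : IntermediateField ℚ ℂ) (Q : R4) : Prop := ∀ m, coeff m Q ∈ K

theorem In4.mul {K : IntermediateField ℚ ℂ} {P Q : R4} (hP : In4 K P) (hQ : In4 K Q) :
    In4 K (P * Q) := by
  classical
  intro m
  rw [coeff_mul]
  exact sum_mem fun x _ => mul_mem (hP _) (hQ _)

theorem In4.add {K : IntermediateField ℚ ℂ} {P Q : R4} (hP : In4 K P) (hQ : In4 K Q) :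
    In4 K (P + Q) := by
  intro m
  rw [coeff_add]
  exact add_mem (hP _) (hQ _)

theorem In4.C {K : IntermediateField ℚ ℂ} {c : ℂ} (hc : c ∈ K) : In4 K (C c) := by
  classical
  intro m
  rw [coeff_C]
  split_ifs
  · exact hc
  · exact zero_mem _

theorem In4.one {K : IntermediateField ℚ ℂ} : In4 K 1 := by
  rw [← C_1]
  exact In4.C (one_mem _)

theorem In4.X {K : IntermediateField ℚ ℂ} (i : Fin (3 + 1)) : In4 K (X i) := by
  classical
  intro m
  rw [coeff_X]
  split_ifs
  · exact one_mem _
  · exact zero_mem _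

theorem In4.pow {K : IntermediateField ℚ ℂ} {P : R4} (hP : In4 K P) (n : ℕ) : In4 K (P ^ n) := by
  induction n with
  | zero => rw [pow_zero]; exact In4.one
  | succ n ih => rw [pow_succ]; exact ih.mul hP

theorem In4.su {K : IntermediateField ℚ ℂ} {i j : ℂ} (hi : i ∈ K) (hj : j ∈ K)
    (k : Fin (3 + 1)) : In4 K (su i j k) := by
  fin_cases k
  · exact In4.X 0
  · exact (In4.X 1).add ((In4.C hi).mul (In4.X 0))
  · exact (In4.X 2).add ((In4.C hj).mul (In4.X 0))
  · exact In4.X 3

theorem In4.aev {K : IntermediateField ℚ ℂ} {i j : ℂ} (hi : i ∈ K) (hj : j ∈ K) {Q : R4}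
    (hQ : In4 K Q) : In4 K (aeval (VS.su i j) Q) := by
  classical
  intro m
  have h1 : (aeval (VS.su i j) Q : R4) =
      ∑ β ∈ Q.support, MvPolynomial.C (coeff β Q) * ∏ k, VS.su i j k ^ β k := by
    rw [aeval_def, eval₂_eq']
    rfl
  rw [h1, coeff_sum]
  refine sum_mem fun β _ => ?_
  have h2 : In4 K (MvPolynomial.C (coeff β Q) * ∏ k, VS.su i j k ^ β k) := by
    refine (In4.C (hQ β)).mul ?_
    rw [Fin.prod_univ_four]
    exact ((((In4.su hi hj 0).pow _).mul ((In4.su hi hj 1).pow _)).mul
      ((In4.su hi hj 2).pow _)).mul ((In4.su hi hj 3).pow _)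
  exact h2 m

theorem vg_su (h : S_TR) {d : ℕ} {F : R4} (hF : VG d F) (i j : ℕ) :
    VG d (aeval (su i j) F) := by
  classical
  obtain ⟨hh, hind⟩ := hF
  have hh' := su_hom hh (i : ℂ) (j : ℂ)
  refine ⟨hh', ?_⟩
  have := fin_II d
  let _ : Fintype (II d) := Fintype.ofFinite _
  set y : II d → ℂ := fun α => coeff α.1 (aeval (su i j) F : R4) with hy
  set K := IntermediateField.adjoin ℚ (Set.range y) with hK
  have hin : In4 K (aeval (su i j) F : R4) := by
    intro m
    by_cases hm : Finsupp.degree m = d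
    · exact IntermediateField.subset_adjoin ℚ (Set.range y) ⟨⟨m, hm⟩, rfl⟩
    · rw [hh'.coeff_eq_zero hm]
      exact zero_mem _
  have hin2 : In4 K F := by
    have h1 := In4.aev (K := K) (i := -(i : ℂ)) (j := -(j : ℂ)) (neg_mem (natCast_mem K i))
      (neg_mem (natCast_mem K j)) hin
    rw [su_inv] at h1
    exact h1
  exact (h (II d) (II d) _ y hind
    (fun α => isAlgebraic_algebraMap (⟨_, hin2 α.1⟩ : K))).2 rfl

/-- restriction to the line -/
noncomputable def uu : R4 →ₐ[ℂ] Polynomial ℂ := aeval ![1, 0, 0, Polynomial.X]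

theorem uu_eval (G : R4) (t : ℂ) : Polynomial.eval t (uu G) = eval (pt t) G := by
  have h : ((Polynomial.aeval t : Polynomial ℂ →ₐ[ℂ] ℂ).comp uu) =
      (aeval (pt t) : R4 →ₐ[ℂ] ℂ) := by
    apply MvPolynomial.algHom_ext
    intro k
    fin_cases k <;> simp [uu, pt]
  have := DFunLike.congr_fun h G
  simpa [aeval_eq_eval] using this

theorem uu_der (F : R4) : Polynomial.derivative (uu F) = uu (pderiv 3 F) := by
  induction F using MvPolynomial.induction_on with
  | C a => simp [uu]
  | add p q hp hq => rw [map_add, map_add, hp, hq, map_add, map_add]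
  | mul_X p n hp =>
    have hn : Polynomial.derivative (uu (X n)) = uu (pderiv 3 (X n : R4)) := by
      fin_cases n <;> simp [uu, pderiv_X]
    rw [map_mul, Polynomial.derivative_mul, hp, Derivation.leibniz, hn]
    simp only [smul_eq_mul, map_add, map_mul]
    ring

theorem uu_sum {d : ℕ} {G : R4} (hG : G.IsHomogeneous d) :
    uu G = ∑ k ∈ Finset.range (d + 1), Polynomial.C (coeff (ek d k) G) * Polynomial.X ^ k := by
  apply Polynomial.funext
  intro t
  rw [uu_eval, eval_pt hG, Polynomial.eval_finsetSum]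
  simp

theorem t_ROOTS (h : S_TR) {d : ℕ} {F : R4} (hd : 3 ≤ d) (hF : VG d F) (i j : ℕ) :
    ∃ t : Fin d → ℂ, Function.Injective t ∧ ∀ l, eval ![1, (i : ℂ), (j : ℂ), t l] F = 0 ∧
      eval ![1, (i : ℂ), (j : ℂ), t l] (pderiv 3 F) ≠ 0 := by
  classical
  obtain ⟨hh, hind⟩ := vg_su h hF i j
  set G : R4 := aeval (su i j) F with hG
  have hder : ∀ t : ℂ, eval (pt t) G = 0 → eval (pt t) (pderiv 3 G) ≠ 0 :=
    fun t ht => der_ne h hd hh hind ht
  have hcd : coeff (ek d d) G ≠ 0 := hind.ne_zero ⟨ek d d, deg_ek le_rfl⟩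
  set p := uu G with hp
  have hsum := uu_sum hh
  rw [← hp] at hsum
  have hco : p.coeff d = coeff (ek d d) G := by
    rw [hsum, Polynomial.finsetSum_coeff, Finset.sum_eq_single d]
    · simp
    · intro k _ hk
      rw [Polynomial.coeff_C_mul, Polynomial.coeff_X_pow, if_neg (Ne.symm hk), mul_zero]
    · intro h
      exact absurd (Finset.mem_range.2 (Nat.lt_succ_self d)) h
  have hle : p.natDegree ≤ d := by
    rw [hsum]
    refine Polynomial.natDegree_sum_le_of_forall_le _ _ fun k hk => ?_
    refine (Polynomial.natDegree_C_mul_X_pow_le _ _).trans ?_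
    have := Finset.mem_range.1 hk
    omega
  have hdeg : p.natDegree = d := by
    refine le_antisymm hle (Polynomial.le_natDegree_of_ne_zero ?_)
    rw [hco]
    exact hcd
  have hp0 : p ≠ 0 := by
    intro h0
    rw [h0, Polynomial.coeff_zero] at hco
    exact hcd hco.symm
  have hnd : p.roots.Nodup := by
    rw [Multiset.nodup_iff_count_le_one]
    intro t
    rw [Polynomial.count_roots]
    by_contra hc
    push Not at hc
    rw [Polynomial.one_lt_rootMultiplicity_iff_isRoot hp0] at hc
    obtain ⟨h1, h2⟩ := hc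
    rw [Polynomial.IsRoot.def, hp, uu_eval] at h1
    rw [Polynomial.IsRoot.def, hp, uu_der, uu_eval] at h2
    exact hder t h1 h2
  have hcard : p.roots.toFinset.card = d := by
    rw [Multiset.toFinset_card_of_nodup hnd]
    rw [← hdeg]
    exact (IsAlgClosed.splits p).natDegree_eq_card_roots.symm
  let e := p.roots.toFinset.equivFinOfCardEq hcard
  refine ⟨fun l => (e.symm l : ℂ), fun a b hab => ?_, fun l => ?_⟩
  · exact e.symm.injective (Subtype.ext hab)
  · have h1 : (e.symm l : ℂ) ∈ p.roots := by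
      have := (e.symm l).2
      rwa [Multiset.mem_toFinset] at this
    have h2 : eval (pt (e.symm l : ℂ)) G = 0 :=
      (uu_eval G _).symm.trans (Polynomial.isRoot_of_mem_roots h1)
    have h3 := hder _ h2
    rw [hG, su_eval] at h2
    rw [hG, su_pderiv, su_eval] at h3
    exact ⟨h2, h3⟩

end Pool.Agent.TH424.VS
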